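import Pool.Agent.Helper68.Moeller.LinRecFinal

/-!
# Möller's exceptional sets are sparse along linear recurrences

For all `d ≥ 2`, all `m > d` coprime to `d` with `m ≤ d^(d/(d-1))` and every admissible `R`: if
`u` is an integer sequence satisfying a linear recurrence with integer coefficients whose last
coefficient is coprime to `d`, and `u` is not constant on any arithmetic progression, then the
number of `t < N` with `u(t)` in the exceptional set `E(d, m, R)` is at most `C N^(1-δ)`.
-/

namespace Pool.Agent.Results.MP_fd8838_nt.LinearRecurrences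

open Pool.Agent.Helper68.Moeller

theorem result (d m : ℕ) (hd : 2 ≤ d) (hdm : d < m) (hco : Nat.Coprime m d)
    (hm : (m : ℝ) ≤ (d : ℝ) ^ ((d : ℝ) / ((d : ℝ) - 1)))
    (r : ℤ → ℤ) (hr : Admissible d m r)
    (n : ℕ) (c : Fin (n + 1) → ℤ) (hc : IsCoprime (c 0) (d : ℤ))
    (u : ℕ → ℤ) (hu : ∀ t : ℕ, u (t + (n + 1)) = ∑ i : Fin (n + 1), c i * u (t + i))
    (hnc : ∀ a M : ℕ, 1 ≤ M → ∃ s : ℕ, u (a + M * s) ≠ u a) :
    ∃ δ : ℝ, 0 < δ ∧ ∃ C : ℝ, ∀ N : ℕ, 1 ≤ N →
      ({t : ℕ | t < N ∧ u t ∈ E d m r}.ncard : ℝ) ≤ C * (N : ℝ) ^ (1 - δ) :=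
  linrec_bound hd hdm hco hm hr n c hc u hu hnc

end Pool.Agent.Results.MP_fd8838_nt.LinearRecurrences

/-
Claim file of this result (moved out of Results, slot given to StoppingTimeCLT, agreed with lead):

Proves: Let d ≥ 2, m > d coprime to d, m ≤ d^(d/(d-1)), R admissible. Let u be an integer sequence with u(t+n+1) = c_0 u(t) + ... + c_n u(t+n) for all t ≥ 0, the c_i integers, gcd(c_0,d) = 1, and u not constant on any arithmetic progression {a+Ms : s ≥ 0}, M ≥ 1. Then there are δ > 0 and C with #{t<N : u(t) ∈ E(d,m,R)} ≤ C·N^(1-δ) for all N ≥ 1.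
Definitions: H, E, Admissible as in the problem file (r is a function on residues; E d m r = the positive n not divisible by d with H^(k)(n) ≥ n whenever H^(k)(n) is defined, the orbit stopping at y with my ≤ r_j; it contains the set of the frozen statement).
Relation: Partial result towards Q1 (finiteness of E), for all admissible R and all d < m ≤ d^(d/(d-1)) (for m < d, E is trivially finite): E has a power saving along very thin sequences, e.g. nonconstant integer polynomials (n = degree, c_0 = ±1), geometric progressions c·g^t with g ≥ 2 and gcd(g,d) = 1, products f(t)·g^t, Fibonacci numbers. Almost all terms of such a sequence have an iterate below themselves. Known: density 0 (Möller) and #(E∩[1,x]) = O(x^(1-δ)) (Heppner), which is the case u(t) = t. We know of no earlier result for sequences other than progressions.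
-/
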